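import Pool.Agent.K7.H75.OC.Quarter

/-!
# Arrangements of orthogonal circles with more than `3 n - 3` triangular faces

The plane is `ℂ`; a circle is a pair (centre, radius). For every `n ≥ 26` there is an arrangement of
`n` orthogonal circles with more than `3 n - 3` triangular faces; for every `n ≥ 2` there is one with
at least `(16 n - 40) / 5` triangular faces.
-/

open Set Metric Topology
open scoped ComplexConjugate

namespace Pool.Agent.Results.MP_020e9d_co.MoreTriangles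

/-- the circle with centre `K.1` and radius `K.2` -/
def circ (K : ℂ × ℝ) : Set ℂ := sphere K.1 K.2

/-- two circles intersect orthogonally: the square of the distance of the centres is the sum of the
squares of the radii -/
def Orth (K L : ℂ × ℝ) : Prop := dist K.1 L.1 ^ 2 = K.2 ^ 2 + L.2 ^ 2

/-- an arrangement of orthogonal circles: any two of the circles are disjoint or orthogonal -/
structure IsArrangement (S : Finset (ℂ × ℝ)) : Prop where
  pos : ∀ K ∈ S, 0 < K.2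
  rel : ∀ K ∈ S, ∀ L ∈ S, K ≠ L → Disjoint (circ K) (circ L) ∨ Orth K L

/-- the crossing points of the arrangement -/
def crossings (S : Finset (ℂ × ℝ)) : Set ℂ :=
  {p | ∃ K ∈ S, ∃ L ∈ S, K ≠ L ∧ p ∈ circ K ∧ p ∈ circ L}

/-- the faces: the connected components of the complement of the union of the circles -/
def IsFace (S : Finset (ℂ × ℝ)) (F : Set ℂ) : Prop :=
  ∃ p ∈ (⋃ K ∈ S, circ K)ᶜ, F = connectedComponentIn (⋃ K ∈ S, circ K)ᶜ p

/-- the (open) arcs of the arrangement: the connected components of a circle without the crossing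
points -/
def IsArc (S : Finset (ℂ × ℝ)) (A : Set ℂ) : Prop :=
  ∃ K ∈ S, ∃ p ∈ circ K \ crossings S, A = connectedComponentIn (circ K \ crossings S) p

/-- `F` is a triangular face: its boundary consists of three arcs, any two of which have exactly
one common endpoint, and these three endpoints are distinct -/
def IsTriangular (S : Finset (ℂ × ℝ)) (F : Set ℂ) : Prop :=
  IsFace S F ∧ ∃ A B C : Set ℂ, IsArc S A ∧ IsArc S B ∧ IsArc S C ∧
    frontier F = closure A ∪ closure B ∪ closure C ∧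
    ∃ p q r : ℂ, p ≠ q ∧ q ≠ r ∧ r ≠ p ∧ closure A ∩ closure B = {p} ∧
      closure B ∩ closure C = {q} ∧ closure C ∩ closure A = {r}

open Pool.Agent.K7.H75.OC

lemma comp_eq {T E u C : Set ℂ} (hE : IsPreconnected E) {p : ℂ} (hp : p ∈ E) (hu : IsOpen u)
    (hC : IsClosed C) (h1 : E ⊆ T ∩ u) (h2 : T ∩ C ⊆ E) (h3 : u ⊆ C) :
    connectedComponentIn T p = E := by
  apply subset_antisymm
  · have hs : IsPreconnected (connectedComponentIn T p) := isPreconnected_connectedComponentIn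
    have hsT : connectedComponentIn T p ⊆ T := connectedComponentIn_subset T p
    have hpT : p ∈ T := (h1 hp).1
    have hps : p ∈ connectedComponentIn T p := mem_connectedComponentIn hpT
    rcases isPreconnected_iff_subset_of_disjoint.1 hs u Cᶜ hu hC.isOpen_compl
      (fun y hy => by
        by_cases hyC : y ∈ C
        · exact Or.inl (h1 (h2 ⟨hsT hy, hyC⟩)).2
        · exact Or.inr hyC)
      (by
        ext y
        simp only [mem_inter_iff, mem_compl_iff, mem_empty_iff_false, iff_false, not_and, not_not]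
        exact fun _ hy => h3 hy) with h | h
    · exact fun y hy => h2 ⟨hsT hy, h3 (h hy)⟩
    · exact absurd (h3 (h1 hp).2) (h hps)
  · exact hE.subset_connectedComponentIn hp fun y hy => (h1 hy).1

/-- `z` lies on the circle through `x` with centre `K.1` -/
lemma mem_circ_iff {K : ℂ × ℝ} (hK : 0 < K.2) {x : ℂ} (hx : x ∈ circ K) (z : ℂ) :
    z ∈ circ K ↔ gf x (x - K.1) z = 0 := by
  unfold circ at *
  rw [mem_sphere, dist_eq_norm] at *
  unfold gf
  rw [show x - (x - K.1) = K.1 by ring, hx, sub_eq_zero]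
  exact (pow_left_inj₀ (norm_nonneg _) hK.le two_ne_zero).symm

section local_lemma

variable {T : Finset (ℂ × ℝ)} {A B : ℂ × ℝ} {x ζ e f : ℂ} {ρ s t : ℝ}

/-- The faces at a crossing point inside a small cap are triangular. -/
lemma tri (hA : A ∈ T) (hB : B ∈ T) (hK : (kc x ζ ρ, kr ζ ρ) ∈ T) (hAB : A ≠ B)
    (hAK : A ≠ (kc x ζ ρ, kr ζ ρ)) (hBK : B ≠ (kc x ζ ρ, kr ζ ρ)) (hA0 : 0 < A.2) (hB0 : 0 < B.2)
    (hxA : x ∈ circ A) (hxB : x ∈ circ B)
    (hoth : ∀ L ∈ T, L ≠ A → L ≠ B → L ≠ (kc x ζ ρ, kr ζ ρ) →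
      Disjoint (circ L) (closedBall (kc x ζ ρ) (kr ζ ρ)))
    (Q : Quad x ζ (x - A.1) (x - B.1) e f ρ s t) :
    IsTriangular T (FF x ζ (x - A.1) (x - B.1) ρ s t) := by
  have mA := mem_circ_iff hA0 hxA
  have mB := mem_circ_iff hB0 hxB
  have mK : ∀ z, z ∈ circ (kc x ζ ρ, kr ζ ρ) ↔ dist z (kc x ζ ρ) = kr ζ ρ := fun z => Iff.rfl
  set K : ℂ × ℝ := (kc x ζ ρ, kr ζ ρ) with hKdef
  -- circles of `T` in the disc
  have hin : ∀ L ∈ T, ∀ z, dist z (kc x ζ ρ) ≤ kr ζ ρ → z ∈ circ L → L = A ∨ L = B ∨ L = K := by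
    intro L hL z hz hzL
    by_contra hc
    push Not at hc
    exact Set.disjoint_left.1 (hoth L hL hc.1 hc.2.1 hc.2.2) hzL hz
  -- crossing points
  have cAK : ∀ z, z ∈ circ A → z ∈ circ K → z ∈ crossings T := fun z h1 h2 => ⟨A, hA, K, hK, hAK, h1, h2⟩
  have cBK : ∀ z, z ∈ circ B → z ∈ circ K → z ∈ crossings T := fun z h1 h2 => ⟨B, hB, K, hK, hBK, h1, h2⟩
  have cAB : ∀ z, z ∈ circ A → z ∈ circ B → z ∈ crossings T := fun z h1 h2 => ⟨A, hA, B, hB, hAB, h1, h2⟩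
  have hncross : ∀ z, dist z (kc x ζ ρ) ≤ kr ζ ρ → z ∈ crossings T →
      (z ∈ circ A ∧ z ∈ circ B) ∨ (z ∈ circ A ∧ z ∈ circ K) ∨ (z ∈ circ B ∧ z ∈ circ K) := by
    rintro z hz ⟨L, hL, M, hM, hLM, h1, h2⟩
    rcases hin L hL z hz h1 with rfl | rfl | rfl <;> rcases hin M hM z hz h2 with rfl | rfl | rfl <;>
      first
        | exact absurd rfl hLM
        | exact Or.inl ⟨h1, h2⟩
        | exact Or.inl ⟨h2, h1⟩
        | exact Or.inr (Or.inl ⟨h1, h2⟩)
        | exact Or.inr (Or.inl ⟨h2, h1⟩)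
        | exact Or.inr (Or.inr ⟨h1, h2⟩)
        | exact Or.inr (Or.inr ⟨h2, h1⟩)
  have ne_of_pos : ∀ {c y : ℝ}, 0 < c * y → y ≠ 0 := fun h h0 => by
    rw [h0, mul_zero] at h; exact lt_irrefl _ h
  have hsub : Icc (0 : ℝ) ρ ⊆ Icc 0 ρ := subset_rfl
  have hIoo : Ioo (0 : ℝ) ρ ⊆ Icc 0 ρ := Ioo_subset_Icc_self
  have hρ := Q.hρ
  -- connectedness and nonemptiness
  have preF : IsPreconnected (FF x ζ (x - A.1) (x - B.1) ρ s t) := by
    rw [Q.FF_eq]; exact Q.pre isPreconnected_Ioo isPreconnected_Ioo hIoo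
  have preA : IsPreconnected (EA x ζ (x - A.1) (x - B.1) ρ t) := by
    rw [Q.EA_eq]; exact Q.pre isPreconnected_Ioo isPreconnected_singleton hIoo
  have preB : IsPreconnected (EB x ζ (x - A.1) (x - B.1) ρ s) := by
    rw [Q.EB_eq]; exact Q.pre isPreconnected_Ioo isPreconnected_singleton hIoo
  have preK : IsPreconnected (EK x ζ (x - A.1) (x - B.1) ρ s t) := by
    rw [Q.EK_eq]
    exact Q.pre isPreconnected_singleton isPreconnected_Ioo (singleton_subset_iff.2 ⟨hρ.le, le_rfl⟩)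
  have hpi : 0 < Real.pi / 2 := by positivity
  obtain ⟨pF, hpF⟩ : (FF x ζ (x - A.1) (x - B.1) ρ s t).Nonempty := by
    rw [Q.FF_eq]
    exact ⟨_, ⟨(ρ / 2, Real.pi / 4), ⟨⟨by positivity, by simp only; linarith⟩,
      ⟨by positivity, by simp only; linarith⟩⟩, rfl⟩⟩
  obtain ⟨pA, hpA⟩ : (EA x ζ (x - A.1) (x - B.1) ρ t).Nonempty := by
    rw [Q.EA_eq]
    exact ⟨_, ⟨(ρ / 2, Real.pi / 2), ⟨⟨by positivity, by simp only; linarith⟩, rfl⟩, rfl⟩⟩
  obtain ⟨pB, hpB⟩ : (EB x ζ (x - A.1) (x - B.1) ρ s).Nonempty := by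
    rw [Q.EB_eq]
    exact ⟨_, ⟨(ρ / 2, 0), ⟨⟨by positivity, by simp only; linarith⟩, rfl⟩, rfl⟩⟩
  obtain ⟨pK, hpK⟩ : (EK x ζ (x - A.1) (x - B.1) ρ s t).Nonempty := by
    rw [Q.EK_eq]
    exact ⟨_, ⟨(ρ, Real.pi / 4), ⟨rfl, ⟨by positivity, by simp only; linarith⟩⟩, rfl⟩⟩
  -- the face
  have hU : ∀ z, z ∈ (⋃ K ∈ T, circ K)ᶜ ↔ ∀ L ∈ T, z ∉ circ L := by
    intro z; simp
  have hFU : FF x ζ (x - A.1) (x - B.1) ρ s t ⊆
      (⋃ K ∈ T, circ K)ᶜ ∩ FF x ζ (x - A.1) (x - B.1) ρ s t := by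
    rintro z hz
    refine ⟨(hU z).2 fun L hL hzL => ?_, hz⟩
    obtain ⟨h1, h2, h3⟩ := hz
    rcases hin L hL z h1.le hzL with rfl | rfl | rfl
    · exact ne_of_pos h2 ((mA z).1 hzL)
    · exact ne_of_pos h3 ((mB z).1 hzL)
    · exact h1.ne ((mK z).1 hzL)
  have hFace : IsFace T (FF x ζ (x - A.1) (x - B.1) ρ s t) := by
    refine ⟨pF, (hFU hpF).1, (comp_eq (C := FFc x ζ (x - A.1) (x - B.1) ρ s t)
      preF hpF FF_open FFc_closed hFU ?_ ?_).symm⟩
    · rintro z ⟨hzU, h1, h2, h3⟩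
      rw [hU] at hzU
      refine ⟨lt_of_le_of_ne h1 fun h => hzU K hK h, lt_of_le_of_ne h2 fun h => hzU A hA ?_,
        lt_of_le_of_ne h3 fun h => hzU B hB ?_⟩
      · rw [mA]; exact (mul_eq_zero.1 h.symm).resolve_left Q.hs0
      · rw [mB]; exact (mul_eq_zero.1 h.symm).resolve_left Q.ht0
    · exact fun z hz => ⟨hz.1.le, hz.2.1.le, hz.2.2.le⟩
  -- the arc on `A`
  have hsA : EA x ζ (x - A.1) (x - B.1) ρ t ⊆ (circ A \ crossings T) ∩
      {z | dist z (kc x ζ ρ) < kr ζ ρ ∧ 0 < t * gf x (x - B.1) z} := by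
    rintro z ⟨h1, h2, h3⟩
    refine ⟨⟨(mA z).2 h2, fun hc => ?_⟩, h1, h3⟩
    rcases hncross z h1.le hc with ⟨-, h⟩ | ⟨-, h⟩ | ⟨h, -⟩
    · exact ne_of_pos h3 ((mB z).1 h)
    · exact h1.ne ((mK z).1 h)
    · exact ne_of_pos h3 ((mB z).1 h)
  have arcA : IsArc T (EA x ζ (x - A.1) (x - B.1) ρ t) := by
    refine ⟨A, hA, pA, (hsA hpA).1, (comp_eq
      (C := {z | dist z (kc x ζ ρ) ≤ kr ζ ρ ∧ 0 ≤ t * gf x (x - B.1) z}) preA hpA
      ((isOpen_lt (cont_d x ζ ρ) continuous_const).inter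
        (isOpen_lt continuous_const (cont_s t x (x - B.1))))
      ((isClosed_le (cont_d x ζ ρ) continuous_const).inter
        (isClosed_le continuous_const (cont_s t x (x - B.1)))) hsA ?_ ?_).symm⟩
    · rintro z ⟨⟨hzA, hzc⟩, h1, h3⟩
      refine ⟨lt_of_le_of_ne h1 fun h => hzc (cAK z hzA h), (mA z).1 hzA,
        lt_of_le_of_ne h3 fun h => hzc (cAB z hzA ?_)⟩
      rw [mB]; exact (mul_eq_zero.1 h.symm).resolve_left Q.ht0
    · exact fun z hz => ⟨hz.1.le, hz.2.le⟩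
  -- the arc on `B`
  have hsB : EB x ζ (x - A.1) (x - B.1) ρ s ⊆ (circ B \ crossings T) ∩
      {z | dist z (kc x ζ ρ) < kr ζ ρ ∧ 0 < s * gf x (x - A.1) z} := by
    rintro z ⟨h1, h2, h3⟩
    refine ⟨⟨(mB z).2 h3, fun hc => ?_⟩, h1, h2⟩
    rcases hncross z h1.le hc with ⟨h, -⟩ | ⟨h, -⟩ | ⟨-, h⟩
    · exact ne_of_pos h2 ((mA z).1 h)
    · exact ne_of_pos h2 ((mA z).1 h)
    · exact h1.ne ((mK z).1 h)
  have arcB : IsArc T (EB x ζ (x - A.1) (x - B.1) ρ s) := by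
    refine ⟨B, hB, pB, (hsB hpB).1, (comp_eq
      (C := {z | dist z (kc x ζ ρ) ≤ kr ζ ρ ∧ 0 ≤ s * gf x (x - A.1) z}) preB hpB
      ((isOpen_lt (cont_d x ζ ρ) continuous_const).inter
        (isOpen_lt continuous_const (cont_s s x (x - A.1))))
      ((isClosed_le (cont_d x ζ ρ) continuous_const).inter
        (isClosed_le continuous_const (cont_s s x (x - A.1)))) hsB ?_ ?_).symm⟩
    · rintro z ⟨⟨hzB, hzc⟩, h1, h2⟩
      refine ⟨lt_of_le_of_ne h1 fun h => hzc (cBK z hzB h),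
        lt_of_le_of_ne h2 fun h => hzc (cAB z ?_ hzB), (mB z).1 hzB⟩
      rw [mA]; exact (mul_eq_zero.1 h.symm).resolve_left Q.hs0
    · exact fun z hz => ⟨hz.1.le, hz.2.le⟩
  -- the arc on `K`
  have hsK : EK x ζ (x - A.1) (x - B.1) ρ s t ⊆ (circ K \ crossings T) ∩
      {z | 0 < s * gf x (x - A.1) z ∧ 0 < t * gf x (x - B.1) z} := by
    rintro z ⟨h1, h2, h3⟩
    refine ⟨⟨(mK z).2 h1, fun hc => ?_⟩, h2, h3⟩
    rcases hncross z h1.le hc with ⟨h, -⟩ | ⟨h, -⟩ | ⟨h, -⟩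
    · exact ne_of_pos h2 ((mA z).1 h)
    · exact ne_of_pos h2 ((mA z).1 h)
    · exact ne_of_pos h3 ((mB z).1 h)
  have arcK : IsArc T (EK x ζ (x - A.1) (x - B.1) ρ s t) := by
    refine ⟨K, hK, pK, (hsK hpK).1, (comp_eq
      (C := {z | 0 ≤ s * gf x (x - A.1) z ∧ 0 ≤ t * gf x (x - B.1) z}) preK hpK
      ((isOpen_lt continuous_const (cont_s s x (x - A.1))).inter
        (isOpen_lt continuous_const (cont_s t x (x - B.1))))
      ((isClosed_le continuous_const (cont_s s x (x - A.1))).inter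
        (isClosed_le continuous_const (cont_s t x (x - B.1)))) hsK ?_ ?_).symm⟩
    · rintro z ⟨⟨hzK, hzc⟩, h2, h3⟩
      refine ⟨(mK z).1 hzK, lt_of_le_of_ne h2 fun h => hzc (cAK z ?_ hzK),
        lt_of_le_of_ne h3 fun h => hzc (cBK z ?_ hzK)⟩
      · rw [mA]; exact (mul_eq_zero.1 h.symm).resolve_left Q.hs0
      · rw [mB]; exact (mul_eq_zero.1 h.symm).resolve_left Q.ht0
    · exact fun z hz => ⟨hz.1.le, hz.2.le⟩
  refine ⟨hFace, _, _, _, arcA, arcB, arcK, ?_, x, G x ζ e f (ρ, 0), G x ζ e f (ρ, Real.pi / 2),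
    ?_, ?_, ?_, ?_, ?_, ?_⟩
  · rw [Q.frontier, Q.EA_closure, Q.EB_closure, Q.EK_closure]
  · intro h
    obtain ⟨-, p1, -⟩ := Q.param (θ := 0) le_rfl hρ.le
    rw [G_zero] at p1
    have h2 := Q.dist_rho 0
    rw [← h] at h2
    exact (p1.2 hρ).ne h2
  · intro h
    obtain ⟨-, -, p1, -⟩ := Q.param (θ := 0) hρ.le le_rfl
    obtain ⟨-, -, p2, -⟩ := Q.param (θ := Real.pi / 2) hρ.le le_rfl
    have h1 := p1.2 (by simpa using hρ)
    rw [h] at h1
    have h2 := p2.1 h1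
    simp at h2
  · intro h
    obtain ⟨-, p1, -⟩ := Q.param (θ := 0) le_rfl hρ.le
    rw [G_zero] at p1
    have h2 := Q.dist_rho (Real.pi / 2)
    rw [h] at h2
    exact (p1.2 hρ).ne h2
  · rw [Q.EA_closure, Q.EB_closure, Q.AB]
  · rw [Q.EB_closure, Q.EK_closure, Q.BK]
  · rw [Q.EK_closure, Q.EA_closure, Q.KA]

end local_lemma

lemma ortho_dt {K L : ℂ × ℝ} {x : ℂ} (hx : x ∈ circ K) (hx' : x ∈ circ L) (h : Orth K L) :
    dt (x - K.1) (x - L.1) = 0 := by
  unfold circ at hx hx'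
  unfold Orth at h
  rw [mem_sphere, dist_eq_norm] at hx hx'
  rw [← hx, ← hx', dist_eq_norm, normsq_eq, normsq_eq, normsq_eq] at h
  unfold dt
  simp only [Complex.sub_re, Complex.sub_im] at *
  linarith

lemma no_three {a b c : ℂ} (ha : a ≠ 0) (hb : b ≠ 0) (hc : c ≠ 0) (hab : dt a b = 0)
    (hac : dt a c = 0) (hbc : dt b c = 0) : False := by
  have ha' : 0 < ‖a‖ ^ 2 := by positivity
  have hb' : 0 < ‖b‖ ^ 2 := by positivity
  have hc' : 0 < ‖c‖ ^ 2 := by positivity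
  rw [normsq_eq] at ha' hb' hc'
  unfold dt at hab hac hbc
  have e1 : (a.re * b.im - a.im * b.re) * (a.re * c.im - a.im * c.re) = 0 := by
    have : (a.re * b.im - a.im * b.re) * (a.re * c.im - a.im * c.re) =
      (a.re ^ 2 + a.im ^ 2) * (b.re * c.re + b.im * c.im) -
        (a.re * b.re + a.im * b.im) * (a.re * c.re + a.im * c.im) := by ring
    rw [this, hab, hbc]; ring
  rcases mul_eq_zero.1 e1 with h | h
  · have : (a.re ^ 2 + a.im ^ 2) * (b.re ^ 2 + b.im ^ 2) = 0 := by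
      have : (a.re ^ 2 + a.im ^ 2) * (b.re ^ 2 + b.im ^ 2) =
        (a.re * b.im - a.im * b.re) ^ 2 + (a.re * b.re + a.im * b.im) ^ 2 := by ring
      rw [this, h, hab]; ring
    exact (mul_pos ha' hb').ne' this
  · have : (a.re ^ 2 + a.im ^ 2) * (c.re ^ 2 + c.im ^ 2) = 0 := by
      have : (a.re ^ 2 + a.im ^ 2) * (c.re ^ 2 + c.im ^ 2) =
        (a.re * c.im - a.im * c.re) ^ 2 + (a.re * c.re + a.im * c.im) ^ 2 := by ring
      rw [this, h, hac]; ring
    exact (mul_pos ha' hc').ne' this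

/-- the parameter `ζ` of the caps at a crossing point -/
noncomputable def zt (a b : ℂ) : ℂ := -(1 / 2) * (1 / a + 1 / b)

lemma div_re_zero {a b : ℂ} (hab : dt a b = 0) : (a / b).re = 0 := by
  rw [Complex.div_re]
  unfold dt at hab
  have : a.re * b.re / Complex.normSq b + a.im * b.im / Complex.normSq b =
    (a.re * b.re + a.im * b.im) / Complex.normSq b := by ring
  rw [this, hab, zero_div]

lemma zt_a {a b : ℂ} (ha : a ≠ 0) (hab : dt a b = 0) : (a * zt a b).re = -1 / 2 := by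
  have e : a * zt a b = ((-1 / 2 : ℝ) : ℂ) + ((-1 / 2 : ℝ) : ℂ) * (a / b) := by
    unfold zt; push_cast; field_simp; ring
  rw [e, Complex.add_re, Complex.re_ofReal_mul, div_re_zero hab, Complex.ofReal_re]; ring

lemma dt_comm (a b : ℂ) : dt a b = dt b a := by unfold dt; ring

lemma zt_b {a b : ℂ} (hb : b ≠ 0) (hab : dt a b = 0) : (b * zt a b).re = -1 / 2 := by
  have e : zt a b = zt b a := by unfold zt; ring
  rw [e]
  exact zt_a hb (by rw [dt_comm]; exact hab)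

lemma mkQuad {x a b : ℂ} {ρ s t : ℝ} (ha : a ≠ 0) (hb : b ≠ 0) (hab : dt a b = 0) (hρ : 0 < ρ)
    (hζ : ρ * ‖zt a b‖ < 1) (hs : s * s = 1) (ht : t * t = 1) :
    Quad x (zt a b) a b (((s / ‖a‖ : ℝ) : ℂ) * a) (((t / ‖b‖ : ℝ) : ℂ) * b) ρ s t := by
  have ha' : 0 < ‖a‖ := norm_pos_iff.2 ha
  have hb' : 0 < ‖b‖ := norm_pos_iff.2 hb
  have hs0 : s ≠ 0 := by rintro rfl; norm_num at hs
  have ht0 : t ≠ 0 := by rintro rfl; norm_num at ht
  have sm : ∀ (c : ℝ) (u v : ℂ), dt ((c : ℂ) * u) v = c * dt u v := by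
    intro c u v; unfold dt; simp only [Complex.mul_re, Complex.mul_im, Complex.ofReal_re, Complex.ofReal_im]; ring
  have sm' : ∀ (c : ℝ) (u v : ℂ), dt u ((c : ℂ) * v) = c * dt u v := by
    intro c u v; rw [dt_comm, sm, dt_comm]
  refine ⟨hρ, hζ, zt_a ha hab, zt_b hb hab, ?_, ?_, ?_, ⟨‖a‖, ha', fun w => ?_⟩,
    ⟨‖b‖, hb', fun w => ?_⟩, hs0, ht0⟩
  · rw [sm, sm', dt_self]; field_simp; rw [pow_two, hs]
  · rw [sm, sm', dt_self]; field_simp; rw [pow_two, ht]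
  · rw [sm, sm', hab]; ring
  · rw [sm]; field_simp
  · rw [sm]; field_simp

lemma cap_orth {x ζ a : ℂ} {ρ : ℝ} (hρ : 0 < ρ) (hζ : ρ * ‖ζ‖ < 1) (ha : (a * ζ).re = -1 / 2) :
    dist (kc x ζ ρ) (x - a) ^ 2 = kr ζ ρ ^ 2 + ‖a‖ ^ 2 := by
  have hD := (D_pos hρ hζ).ne'
  rw [dist_eq_norm]
  unfold kc kr
  obtain ⟨D, hDdef⟩ : ∃ D, D = 1 - ρ ^ 2 * ‖ζ‖ ^ 2 := ⟨_, rfl⟩
  rw [← hDdef] at hD ⊢
  have e1 : x - ((ρ ^ 2 / D : ℝ) : ℂ) * conj ζ - (x - a) = a - ((ρ ^ 2 / D : ℝ) : ℂ) * conj ζ := by ring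
  rw [normsq_eq] at hDdef
  rw [e1, normsq_eq, normsq_eq]
  simp only [Complex.sub_re, Complex.sub_im, Complex.mul_re, Complex.mul_im, Complex.ofReal_re,
    Complex.ofReal_im, Complex.conj_re, Complex.conj_im] at ha ⊢
  have hρD : ρ ^ 2 * (ζ.re ^ 2 + ζ.im ^ 2) = 1 - D := by rw [hDdef]; ring
  field_simp
  linear_combination (ρ ^ 2) * hρD - 2 * D * ρ ^ 2 * ha

lemma cap_small {x ζ : ℂ} {ρ : ℝ} (hρ : 0 < ρ) (hζ : ρ * ‖ζ‖ ≤ 1 / 2) :
    closedBall (kc x ζ ρ) (kr ζ ρ) ⊆ closedBall x (2 * ρ) := by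
  intro z hz
  obtain ⟨w, hw, rfl⟩ := exists_w hρ (by linarith) (mem_closedBall.1 hz)
  rw [mem_closedBall, dist_eq_norm]
  unfold psi
  rw [add_sub_cancel_left, norm_div]
  have h1 : 1 / 2 ≤ ‖1 + ζ * w‖ := by
    have h2 : ‖ζ * w‖ ≤ 1 / 2 := by
      rw [norm_mul]
      nlinarith [norm_nonneg ζ, norm_nonneg w]
    have h3 := norm_sub_norm_le (1 : ℂ) (-(ζ * w))
    rw [norm_one, norm_neg, sub_neg_eq_add] at h3
    linarith
  rw [div_le_iff₀ (by linarith)]
  nlinarith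

/-- a cap at the crossing point `x` inside the ball of radius `δ` -/
structure Cap (S : Finset (ℂ × ℝ)) (x : ℂ) (δ : ℝ) (A B : ℂ × ℝ) (ρ : ℝ) : Prop where
  hA : A ∈ S
  hB : B ∈ S
  hAB : A ≠ B
  hxA : x ∈ circ A
  hxB : x ∈ circ B
  hdt : dt (x - A.1) (x - B.1) = 0
  ha0 : x - A.1 ≠ 0
  hb0 : x - B.1 ≠ 0
  hρ : 0 < ρ
  hζ : ρ * ‖zt (x - A.1) (x - B.1)‖ < 1
  hsub : closedBall (kc x (zt (x - A.1) (x - B.1)) ρ) (kr (zt (x - A.1) (x - B.1)) ρ) ⊆
    closedBall x δ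
  only : ∀ L ∈ S, x ∈ circ L → L = A ∨ L = B

lemma exists_cap {S : Finset (ℂ × ℝ)} (hS : IsArrangement S) {x : ℂ} (hx : x ∈ crossings S)
    {δ : ℝ} (hδ : 0 < δ) : ∃ A B ρ, Cap S x δ A B ρ := by
  obtain ⟨A, hA, B, hB, hAB, hxA, hxB⟩ := hx
  have orth : ∀ K ∈ S, ∀ L ∈ S, K ≠ L → x ∈ circ K → x ∈ circ L → Orth K L := by
    intro K hK L hL hKL h1 h2
    rcases hS.rel K hK L hL hKL with h | h
    · exact absurd h2 (Set.disjoint_left.1 h h1)
    · exact h
  have ne : ∀ K ∈ S, x ∈ circ K → x - K.1 ≠ 0 := by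
    intro K hK h h0
    unfold circ at h
    rw [mem_sphere, dist_eq_norm, h0, norm_zero] at h
    exact (hS.pos K hK).ne h
  set ζ := zt (x - A.1) (x - B.1) with hζ
  refine ⟨A, B, min (δ / 2) (1 / (2 * (‖ζ‖ + 1))), hA, hB, hAB, hxA, hxB,
    ortho_dt hxA hxB (orth A hA B hB hAB hxA hxB), ne A hA hxA, ne B hB hxB, ?_, ?_, ?_, ?_⟩
  · have := norm_nonneg ζ; positivity
  · have h1 : min (δ / 2) (1 / (2 * (‖ζ‖ + 1))) ≤ 1 / (2 * (‖ζ‖ + 1)) := min_le_right _ _
    have h2 := norm_nonneg ζ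
    have h3 : 1 / (2 * (‖ζ‖ + 1)) * ‖ζ‖ < 1 := by
      rw [one_div, inv_mul_lt_iff₀ (by positivity)]; linarith
    exact lt_of_le_of_lt (mul_le_mul_of_nonneg_right h1 h2) h3
  · have h1 : min (δ / 2) (1 / (2 * (‖ζ‖ + 1))) ≤ 1 / (2 * (‖ζ‖ + 1)) := min_le_right _ _
    have h2 := norm_nonneg ζ
    have h3 : 1 / (2 * (‖ζ‖ + 1)) * ‖ζ‖ ≤ 1 / 2 := by
      rw [one_div, inv_mul_le_iff₀ (by positivity)]; linarith
    refine (cap_small (by positivity) ((mul_le_mul_of_nonneg_right h1 h2).trans h3)).trans ?_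
    exact closedBall_subset_closedBall (by linarith [min_le_left (δ / 2) (1 / (2 * (‖ζ‖ + 1)))])
  · intro L hL hxL
    by_contra hc
    push Not at hc
    exact no_three (ne A hA hxA) (ne B hB hxB) (ne L hL hxL)
      (ortho_dt hxA hxB (orth A hA B hB hAB hxA hxB))
      (ortho_dt hxA hxL (orth A hA L hL (Ne.symm hc.1) hxA hxL))
      (ortho_dt hxB hxL (orth B hB L hL (Ne.symm hc.2) hxB hxL))

lemma exists_delta (S : Finset (ℂ × ℝ)) (Y : Finset ℂ) : ∃ δ : ℝ, 0 < δ ∧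
    (∀ x ∈ Y, ∀ L ∈ S, x ∉ circ L → Disjoint (circ L) (closedBall x δ)) ∧
    ∀ x ∈ Y, ∀ y ∈ Y, x ≠ y → Disjoint (closedBall x δ) (closedBall y δ) := by
  have h1 : ∀ᶠ δ : ℝ in 𝓝[>] 0, ∀ x ∈ Y, ∀ L ∈ S, x ∉ circ L → Disjoint (circ L) (closedBall x δ) := by
    rw [Filter.eventually_all_finset]
    intro x _
    rw [Filter.eventually_all_finset]
    intro L _
    by_cases hx : x ∈ circ L
    · exact Filter.Eventually.of_forall fun δ h => absurd hx h
    · have hcl : IsClosed (circ L) := isClosed_sphere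
      obtain ⟨ε, hε, hb⟩ := Metric.isOpen_iff.1 hcl.isOpen_compl x hx
      filter_upwards [Ioo_mem_nhdsGT hε] with δ hδ _
      rw [Set.disjoint_right]
      intro z hz
      exact hb (lt_of_le_of_lt hz hδ.2)
  have h2 : ∀ᶠ δ : ℝ in 𝓝[>] 0, ∀ x ∈ Y, ∀ y ∈ Y, x ≠ y →
      Disjoint (closedBall x δ) (closedBall y δ) := by
    rw [Filter.eventually_all_finset]
    intro x _
    rw [Filter.eventually_all_finset]
    intro y _
    by_cases hxy : x = y
    · exact Filter.Eventually.of_forall fun δ h => absurd hxy h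
    · have hd : 0 < dist x y / 2 := by have := dist_pos.2 hxy; positivity
      filter_upwards [Ioo_mem_nhdsGT hd] with δ hδ _
      exact closedBall_disjoint_closedBall (by linarith [hδ.2])
  obtain ⟨δ, hδ1, hδ2, hδ3⟩ := (h1.and (h2.and self_mem_nhdsWithin)).exists
  exact ⟨δ, hδ3, hδ1, hδ2⟩

lemma nonempty_FF {x ζ a b e f : ℂ} {ρ s t : ℝ} (Q : Quad x ζ a b e f ρ s t) :
    (FF x ζ a b ρ s t).Nonempty := by
  have hρ := Q.hρ
  have hpi : 0 < Real.pi := Real.pi_pos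
  rw [Q.FF_eq]
  exact ⟨_, ⟨(ρ / 2, Real.pi / 4), ⟨⟨by positivity, by simp only; linarith⟩,
    ⟨by positivity, by simp only; linarith⟩⟩, rfl⟩⟩

/-- the cap -/
noncomputable def kap (x : ℂ) (A B : ℂ × ℝ) (ρ : ℝ) : ℂ × ℝ :=
  (kc x (zt (x - A.1) (x - B.1)) ρ, kr (zt (x - A.1) (x - B.1)) ρ)

section cap
variable {S : Finset (ℂ × ℝ)} {x : ℂ} {δ : ℝ} {A B : ℂ × ℝ} {ρ : ℝ}

lemma Cap.quad (C : Cap S x δ A B ρ) {s t : ℝ} (hs : s * s = 1) (ht : t * t = 1) :
    Quad x (zt (x - A.1) (x - B.1)) (x - A.1) (x - B.1) (((s / ‖x - A.1‖ : ℝ) : ℂ) * (x - A.1))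
      (((t / ‖x - B.1‖ : ℝ) : ℂ) * (x - B.1)) ρ s t :=
  mkQuad C.ha0 C.hb0 C.hdt C.hρ C.hζ hs ht

lemma Cap.pos (C : Cap S x δ A B ρ) : 0 < (kap x A B ρ).2 := kr_pos C.hρ C.hζ

lemma Cap.ball (C : Cap S x δ A B ρ) :
    closedBall (kap x A B ρ).1 (kap x A B ρ).2 ⊆ closedBall x δ := C.hsub

lemma Cap.sub (C : Cap S x δ A B ρ) : circ (kap x A B ρ) ⊆ closedBall x δ :=
  sphere_subset_closedBall.trans C.ball

lemma Cap.notin (C : Cap S x δ A B ρ) : x ∉ circ (kap x A B ρ) := by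
  intro h
  have Q := C.quad (s := 1) (t := 1) (by norm_num) (by norm_num)
  obtain ⟨-, p1, -⟩ := Q.param (θ := 0) le_rfl C.hρ.le
  rw [G_zero] at p1
  exact (p1.2 C.hρ).ne h

lemma Cap.others (C : Cap S x δ A B ρ)
    (hδ : ∀ L ∈ S, x ∉ circ L → Disjoint (circ L) (closedBall x δ)) {L : ℂ × ℝ} (hL : L ∈ S)
    (h1 : L ≠ A) (h2 : L ≠ B) : Disjoint (circ L) (closedBall x δ) := by
  refine hδ L hL fun h => ?_
  rcases C.only L hL h with h | h
  · exact h1 h
  · exact h2 h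

lemma Cap.notmem (C : Cap S x δ A B ρ)
    (hδ : ∀ L ∈ S, x ∉ circ L → Disjoint (circ L) (closedBall x δ)) : kap x A B ρ ∉ S := by
  intro h
  have h1 := hδ _ h C.notin
  obtain ⟨z, hz⟩ : (circ (kap x A B ρ)).Nonempty := NormedSpace.sphere_nonempty.2 C.pos.le
  exact Set.disjoint_left.1 h1 hz (C.sub hz)

lemma Cap.orthA (C : Cap S x δ A B ρ) : Orth (kap x A B ρ) A := by
  have h1 := cap_orth (x := x) C.hρ C.hζ (zt_a C.ha0 C.hdt)
  have h2 := C.hxA
  unfold circ at h2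
  rw [mem_sphere, dist_eq_norm] at h2
  rw [sub_sub_cancel, h2] at h1
  exact h1

lemma Cap.orthB (C : Cap S x δ A B ρ) : Orth (kap x A B ρ) B := by
  have h1 := cap_orth (x := x) C.hρ C.hζ (zt_b C.hb0 C.hdt)
  have h2 := C.hxB
  unfold circ at h2
  rw [mem_sphere, dist_eq_norm] at h2
  rw [sub_sub_cancel, h2] at h1
  exact h1

lemma Orth.symm {K L : ℂ × ℝ} (h : Orth K L) : Orth L K := by
  unfold Orth at *
  rw [dist_comm, h, add_comm]

end cap

/-- Caps at the crossing points in `Y`. -/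
lemma capMany {S : Finset (ℂ × ℝ)} (hS : IsArrangement S) (Y : Finset ℂ)
    (hY : ∀ x ∈ Y, x ∈ crossings S) :
    ∃ (T : Finset (ℂ × ℝ)) (𝓕 : Finset (Set ℂ)), IsArrangement T ∧ T.card = S.card + Y.card ∧
      𝓕.card = 4 * Y.card ∧ (∀ F ∈ 𝓕, IsTriangular T F) ∧ S ⊆ T ∧
      ∀ x ∈ Y, ∃ N : Finset ℂ, N.card = 4 ∧ ∀ p ∈ N, p ∈ crossings T ∧ p ∉ crossings S := by
  classical
  obtain ⟨δ, hδ, hδ1, hδ2⟩ := exists_delta S Y
  have hex : ∀ x ∈ Y, ∃ A B ρ, Cap S x δ A B ρ := fun x hx => exists_cap hS (hY x hx) hδ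
  choose! A B ρ hC using hex
  set k : ℂ → ℂ × ℝ := fun x => kap x (A x) (B x) (ρ x) with hk
  have hsub : ∀ x ∈ Y, circ (k x) ⊆ closedBall x δ := fun x hx => (hC x hx).sub
  have hnm : ∀ x ∈ Y, k x ∉ S := fun x hx => (hC x hx).notmem (hδ1 x hx)
  have hne : ∀ x ∈ Y, (circ (k x)).Nonempty := fun x hx =>
    NormedSpace.sphere_nonempty.2 (hC x hx).pos.le
  have hkinj : Set.InjOn k Y := by
    intro x hx y hy h
    by_contra hxy
    obtain ⟨z, hz⟩ := hne x hx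
    exact Set.disjoint_left.1 (hδ2 x hx y hy hxy) (hsub x hx hz) (hsub y hy (h ▸ hz))
  have hdisj : Disjoint S (Y.image k) := by
    rw [Finset.disjoint_right]
    intro K hK
    obtain ⟨x, hx, rfl⟩ := Finset.mem_image.1 hK
    exact hnm x hx
  set T := S ∪ Y.image k with hT
  have hmem : ∀ L ∈ T, L ∈ S ∨ ∃ x ∈ Y, L = k x := by
    intro L hL
    rcases Finset.mem_union.1 hL with h | h
    · exact Or.inl h
    · obtain ⟨x, hx, rfl⟩ := Finset.mem_image.1 h
      exact Or.inr ⟨x, hx, rfl⟩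
  have hkT : ∀ x ∈ Y, k x ∈ T := fun x hx => Finset.mem_union_right _ (Finset.mem_image_of_mem _ hx)
  have hrel : ∀ x ∈ Y, ∀ L ∈ S, Disjoint (circ (k x)) (circ L) ∨ Orth (k x) L := by
    intro x hx L hL
    by_cases h1 : L = A x
    · rw [h1]; exact Or.inr (hC x hx).orthA
    by_cases h2 : L = B x
    · rw [h2]; exact Or.inr (hC x hx).orthB
    · exact Or.inl (((hC x hx).others (hδ1 x hx) hL h1 h2).symm.mono_left (hsub x hx))
  have hTarr : IsArrangement T := by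
    refine ⟨?_, ?_⟩
    · intro K hK
      rcases hmem K hK with h | ⟨x, hx, rfl⟩
      · exact hS.pos K h
      · exact (hC x hx).pos
    · intro K hK L hL hKL
      rcases hmem K hK with h | ⟨x, hx, rfl⟩ <;> rcases hmem L hL with h' | ⟨y, hy, rfl⟩
      · exact hS.rel K h L h' hKL
      · rcases hrel y hy K h with h1 | h1
        · exact Or.inl h1.symm
        · exact Or.inr h1.symm
      · exact hrel x hx L h'
      · have hxy : x ≠ y := fun h => hKL (by rw [h])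
        exact Or.inl ((hδ2 x hx y hy hxy).mono (hsub x hx) (hsub y hy))
  -- the faces
  set U : Finset ℝ := {1, -1} with hU
  have hUcard : U.card = 2 := Finset.card_pair (by norm_num)
  have hUsq : ∀ s ∈ U, s * s = 1 := by
    intro s hs
    rw [hU, Finset.mem_insert, Finset.mem_singleton] at hs
    rcases hs with rfl | rfl <;> norm_num
  have hUeq : ∀ s ∈ U, ∀ s' ∈ U, ∀ g : ℝ, 0 < s * g → 0 < s' * g → s = s' := by
    intro s hs s' hs' g h1 h2
    rw [hU, Finset.mem_insert, Finset.mem_singleton] at hs hs'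
    rcases hs with rfl | rfl <;> rcases hs' with rfl | rfl <;> first | rfl | (exfalso; linarith)
  set ff : ℂ × ℝ × ℝ → Set ℂ := fun p => FF p.1 (zt (p.1 - (A p.1).1) (p.1 - (B p.1).1))
    (p.1 - (A p.1).1) (p.1 - (B p.1).1) (ρ p.1) p.2.1 p.2.2 with hff
  have hffsub : ∀ x ∈ Y, ∀ s t, ff (x, s, t) ⊆ closedBall x δ := by
    intro x hx s t z hz
    exact (hC x hx).ball (le_of_lt hz.1)
  have hinj : Set.InjOn ff (Y ×ˢ U ×ˢ U : Finset (ℂ × ℝ × ℝ)) := by
    rintro ⟨x, s, t⟩ hp ⟨y, s', t'⟩ hq h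
    rw [Finset.mem_coe, Finset.mem_product, Finset.mem_product] at hp hq
    obtain ⟨hx, hs, ht⟩ := hp
    obtain ⟨hy, hs', ht'⟩ := hq
    simp only at hx hs ht hy hs' ht'
    obtain ⟨z, hz⟩ := nonempty_FF ((hC x hx).quad (hUsq s hs) (hUsq t ht))
    have hz' : z ∈ ff (y, s', t') := by rw [← h]; exact hz
    have hxy : x = y := by
      by_contra hxy
      exact Set.disjoint_left.1 (hδ2 x hx y hy hxy) (hffsub x hx s t hz) (hffsub y hy s' t' hz')
    subst hxy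
    rw [hUeq s hs s' hs' _ hz.2.1 hz'.2.1, hUeq t ht t' ht' _ hz.2.2 hz'.2.2]
  refine ⟨T, (Y ×ˢ U ×ˢ U).image ff, hTarr, ?_, ?_, ?_, Finset.subset_union_left, ?_⟩
  · rw [hT, Finset.card_union_of_disjoint hdisj, Finset.card_image_of_injOn hkinj]
  · rw [Finset.card_image_of_injOn hinj, Finset.card_product, Finset.card_product, hUcard]; ring
  · intro F hF
    obtain ⟨⟨x, s, t⟩, hp, rfl⟩ := Finset.mem_image.1 hF
    rw [Finset.mem_product, Finset.mem_product] at hp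
    obtain ⟨hx, hs, ht⟩ := hp
    simp only at hx hs ht
    have hc := hC x hx
    refine tri (T := T) (A := A x) (B := B x) (Finset.mem_union_left _ hc.hA)
      (Finset.mem_union_left _ hc.hB) (hkT x hx) hc.hAB ?_ ?_ (hS.pos _ hc.hA) (hS.pos _ hc.hB)
      hc.hxA hc.hxB ?_ (hc.quad (hUsq s hs) (hUsq t ht))
    · intro h; have h' : A x = k x := h; exact hnm x hx (h' ▸ hc.hA)
    · intro h; have h' : B x = k x := h; exact hnm x hx (h' ▸ hc.hB)
    · intro L hL h1 h2 h3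
      rcases hmem L hL with h | ⟨y, hy, rfl⟩
      · exact (hc.others (hδ1 x hx) h h1 h2).mono_right hc.ball
      · have hxy : y ≠ x := fun h => h3 (by rw [h]; rfl)
        exact (hδ2 y hy x hx hxy).mono (hsub y hy) hc.ball
  · intro x hx
    have hc := hC x hx
    have mA := mem_circ_iff (hS.pos _ hc.hA) hc.hxA
    have mB := mem_circ_iff (hS.pos _ hc.hB) hc.hxB
    -- points on the cap
    have key : ∀ z, z ∈ circ (k x) → (gf x (x - (A x).1) z = 0 ∧ gf x (x - (B x).1) z ≠ 0 ∨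
        gf x (x - (A x).1) z ≠ 0 ∧ gf x (x - (B x).1) z = 0) → z ∈ crossings T ∧ z ∉ crossings S := by
      intro z hz h
      constructor
      · rcases h with ⟨h1, -⟩ | ⟨-, h2⟩
        · exact ⟨A x, Finset.mem_union_left _ hc.hA, k x, hkT x hx, fun h => hnm x hx (h ▸ hc.hA),
            (mA z).2 h1, hz⟩
        · exact ⟨B x, Finset.mem_union_left _ hc.hB, k x, hkT x hx, fun h => hnm x hx (h ▸ hc.hB),
            (mB z).2 h2, hz⟩
      · rintro ⟨L, hL, M, hM, hLM, h1, h2⟩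
        have hzb := hsub x hx hz
        have hin : ∀ L ∈ S, z ∈ circ L → L = A x ∨ L = B x := by
          intro L hL hzL
          by_contra hcon
          push Not at hcon
          exact Set.disjoint_left.1 (hc.others (hδ1 x hx) hL hcon.1 hcon.2) hzL hzb
        have hboth : z ∈ circ (A x) ∧ z ∈ circ (B x) := by
          rcases hin L hL h1 with h3 | h3 <;> rcases hin M hM h2 with h4 | h4
          · exact absurd (h3.trans h4.symm) hLM
          · exact ⟨h3 ▸ h1, h4 ▸ h2⟩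
          · exact ⟨h4 ▸ h2, h3 ▸ h1⟩
          · exact absurd (h3.trans h4.symm) hLM
        rw [mA, mB] at hboth
        rcases h with ⟨-, h4⟩ | ⟨h3, -⟩
        · exact h4 hboth.2
        · exact h3 hboth.1
    have Q1 := hc.quad (s := 1) (t := 1) (by norm_num) (by norm_num)
    have Q2 := hc.quad (s := -1) (t := -1) (by norm_num) (by norm_num)
    obtain ⟨-, -, a1, -, -, -, -, a2⟩ := Q1.param (θ := 0) hc.hρ.le le_rfl
    obtain ⟨-, -, -, -, b1, b2, -, -⟩ := Q1.param (θ := Real.pi / 2) hc.hρ.le le_rfl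
    obtain ⟨-, -, c1, -, -, -, -, c2⟩ := Q2.param (θ := 0) hc.hρ.le le_rfl
    obtain ⟨-, -, -, -, d1, d2, -, -⟩ := Q2.param (θ := Real.pi / 2) hc.hρ.le le_rfl
    have ea := Q1.dist_rho 0
    have eb := Q1.dist_rho (Real.pi / 2)
    have ec := Q2.dist_rho 0
    have ed := Q2.dist_rho (Real.pi / 2)
    have a1' := a1.2 (by simpa using hc.hρ)
    have a2' := a2.2 (by simp)
    have b1' := b1.2 (by simp)
    have b2' := b2.2 (by simpa using hc.hρ)
    have c1' := c1.2 (by simpa using hc.hρ)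
    have c2' := c2.2 (by simp)
    have d1' := d1.2 (by simp)
    have d2' := d2.2 (by simpa using hc.hρ)
    generalize G x _ _ _ (ρ x, 0) = u1 at a1' a2' ea
    generalize G x _ _ _ (ρ x, 0) = u2 at c1' c2' ec
    generalize G x _ _ _ (ρ x, Real.pi / 2) = u3 at b1' b2' eb
    generalize G x _ _ _ (ρ x, Real.pi / 2) = u4 at d1' d2' ed
    have n12 : u1 ≠ u2 := by rintro rfl; linarith
    have n13 : u1 ≠ u3 := by rintro rfl; rw [b1'] at a1'; linarith
    have n14 : u1 ≠ u4 := by rintro rfl; rw [d1'] at a1'; linarith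
    have n23 : u2 ≠ u3 := by rintro rfl; rw [b1'] at c1'; linarith
    have n24 : u2 ≠ u4 := by rintro rfl; rw [d1'] at c1'; linarith
    have n34 : u3 ≠ u4 := by rintro rfl; linarith
    refine ⟨{u1, u2, u3, u4}, ?_, ?_⟩
    · rw [Finset.card_insert_of_notMem (by simp [n12, n13, n14]),
        Finset.card_insert_of_notMem (by simp [n23, n24]), Finset.card_pair n34]
    · intro p hp
      simp only [Finset.mem_insert, Finset.mem_singleton] at hp
      rcases hp with rfl | rfl | rfl | rfl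
      · exact key _ ea (Or.inr ⟨fun h => by rw [h] at a1'; linarith, a2'⟩)
      · exact key _ ec (Or.inr ⟨fun h => by rw [h] at c1'; linarith, c2'⟩)
      · exact key _ eb (Or.inl ⟨b1', fun h => by rw [h] at b2'; linarith⟩)
      · exact key _ ed (Or.inl ⟨d1', fun h => by rw [h] at d2'; linarith⟩)

lemma crossings_mono {S T : Finset (ℂ × ℝ)} (h : S ⊆ T) : crossings S ⊆ crossings T := by
  rintro p ⟨K, hK, L, hL, h1⟩
  exact ⟨K, h hK, L, h hL, h1⟩

/-- arrangements of `j + 2` circles with `4 j + 2` crossing points -/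
lemma many_crossings (j : ℕ) : ∃ (S : Finset (ℂ × ℝ)) (P : Finset ℂ), IsArrangement S ∧
    S.card = j + 2 ∧ P.card = 4 * j + 2 ∧ ∀ p ∈ P, p ∈ crossings S := by
  classical
  induction j with
  | zero =>
    have hne : ((0 : ℂ), (3 : ℝ)) ≠ ((5 : ℂ), (4 : ℝ)) := by
      intro h; have := congrArg Prod.snd h; norm_num at this
    refine ⟨{(0, 3), (5, 4)}, {⟨9 / 5, 12 / 5⟩, ⟨9 / 5, -12 / 5⟩}, ⟨?_, ?_⟩, Finset.card_pair hne,
      Finset.card_pair ?_, ?_⟩
    · intro K hK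
      simp only [Finset.mem_insert, Finset.mem_singleton] at hK
      rcases hK with rfl | rfl <;> norm_num
    · intro K hK L hL hKL
      simp only [Finset.mem_insert, Finset.mem_singleton] at hK hL
      rcases hK with rfl | rfl <;> rcases hL with rfl | rfl
      · exact absurd rfl hKL
      · right; unfold Orth; rw [dist_eq_norm]; norm_num
      · right; unfold Orth; rw [dist_eq_norm]; norm_num
      · exact absurd rfl hKL
    · intro h
      have := congrArg Complex.im h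
      norm_num at this
    · have h1 : ∀ y : ℝ, y ^ 2 = 144 / 25 → (⟨9 / 5, y⟩ : ℂ) ∈ circ (0, 3) := by
        intro y hy
        unfold circ
        rw [mem_sphere, dist_eq_norm, ← pow_left_inj₀ (norm_nonneg _) (by norm_num) two_ne_zero,
          normsq_eq]
        simp only [sub_zero]
        rw [hy]; norm_num
      have h2 : ∀ y : ℝ, y ^ 2 = 144 / 25 → (⟨9 / 5, y⟩ : ℂ) ∈ circ (5, 4) := by
        intro y hy
        unfold circ
        rw [mem_sphere, dist_eq_norm, ← pow_left_inj₀ (norm_nonneg _) (by norm_num) two_ne_zero,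
          normsq_eq]
        have e1 : ((⟨9 / 5, y⟩ : ℂ) - 5).re = 9 / 5 - 5 := by simp
        have e2 : ((⟨9 / 5, y⟩ : ℂ) - 5).im = y := by simp
        simp only [e1, e2]
        rw [hy]; norm_num
      intro p hp
      simp only [Finset.mem_insert, Finset.mem_singleton] at hp
      refine ⟨(0, 3), by simp, (5, 4), by simp, hne, ?_, ?_⟩
      · rcases hp with rfl | rfl
        · exact h1 _ (by norm_num)
        · exact h1 _ (by norm_num)
      · rcases hp with rfl | rfl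
        · exact h2 _ (by norm_num)
        · exact h2 _ (by norm_num)
  | succ j ih =>
    obtain ⟨S, P, hS, hc, hPc, hP⟩ := ih
    obtain ⟨x, hx⟩ : P.Nonempty := Finset.card_pos.1 (by omega)
    obtain ⟨T, -, hT, hTc, -, -, hST, hN⟩ := capMany hS {x} (by
      intro y hy; rw [Finset.mem_singleton] at hy; rw [hy]; exact hP x hx)
    obtain ⟨N, hN4, hNm⟩ := hN x (Finset.mem_singleton_self x)
    refine ⟨T, P ∪ N, hT, ?_, ?_, ?_⟩
    · rw [hTc, hc, Finset.card_singleton]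
    · rw [Finset.card_union_of_disjoint, hPc, hN4]
      · ring
      · rw [Finset.disjoint_left]
        exact fun p hp hpN => (hNm p hpN).2 (hP p hp)
    · intro p hp
      rcases Finset.mem_union.1 hp with h | h
      · exact crossings_mono hST (hP p h)
      · exact (hNm p h).1

lemma main (n : ℕ) (hn : 2 ≤ n) : ∃ (T : Finset (ℂ × ℝ)) (𝓕 : Finset (Set ℂ)), IsArrangement T ∧
    T.card = n ∧ (∀ F ∈ 𝓕, IsTriangular T F) ∧ 𝓕.card + 4 * (n / 5 + 2) = 4 * n := by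
  obtain ⟨S, P, hS, hc, hPc, hP⟩ := many_crossings (n / 5)
  obtain ⟨Y, hYP, hYc⟩ := Finset.exists_subset_card_eq (s := P) (n := n - (n / 5 + 2))
    (by rw [hPc]; omega)
  obtain ⟨T, 𝓕, hT, hTc, hFc, hF, -⟩ := capMany hS Y (fun x hx => hP x (hYP hx))
  exact ⟨T, 𝓕, hT, by omega, hF, by omega⟩

/-- (1) For every `n ≥ 26` there is an arrangement of `n` orthogonal circles with more than
`3 n - 3` triangular faces. (2) For every `n ≥ 2` there is an arrangement of `n` orthogonal circles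
with at least `(16 n - 40) / 5` triangular faces. -/
theorem result :
    (∀ n : ℕ, 26 ≤ n → ∃ (S : Finset (ℂ × ℝ)) (𝓕 : Finset (Set ℂ)), IsArrangement S ∧ S.card = n ∧
      (∀ F ∈ 𝓕, IsTriangular S F) ∧ 3 * (n : ℝ) - 3 < 𝓕.card) ∧
    (∀ n : ℕ, 2 ≤ n → ∃ (S : Finset (ℂ × ℝ)) (𝓕 : Finset (Set ℂ)), IsArrangement S ∧ S.card = n ∧
      (∀ F ∈ 𝓕, IsTriangular S F) ∧ (16 * (n : ℝ) - 40) / 5 ≤ 𝓕.card) := by
  constructor
  · intro n hn
    obtain ⟨T, 𝓕, hT, hTc, hF, hc⟩ := main n (by omega)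
    refine ⟨T, 𝓕, hT, hTc, hF, ?_⟩
    have h : 3 * n < 𝓕.card + 3 := by omega
    have h' : (3 * n : ℝ) < 𝓕.card + 3 := by exact_mod_cast h
    linarith
  · intro n hn
    obtain ⟨T, 𝓕, hT, hTc, hF, hc⟩ := main n hn
    refine ⟨T, 𝓕, hT, hTc, hF, ?_⟩
    have h : 16 * n ≤ 5 * 𝓕.card + 40 := by omega
    have h' : (16 * n : ℝ) ≤ 5 * 𝓕.card + 40 := by exact_mod_cast h
    linarith

end Pool.Agent.Results.MP_020e9d_co.MoreTriangles
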